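import Mathlib
import Pool.Prelude.Def_F_a2e9aac2
import Pool.Agent.E8helper11.GS.Stm

/-!
# Project GS, part CNT: a product of `H.card` terms below `y` forces `H.card ≤ t u y`
-/

set_option autoImplicit false

open Filter Topology
open scoped Classical

namespace Pool.Agent.E8helper30.GS

open Pool.Agent.E8helper11.GS N0ef6d136

/-- the first `H.card` terms of a monotone sequence have the least product -/
theorem prod_range_card_le (u : ℕ → ℕ) (hu : StrictMono u) (H : Finset ℕ) :
    ∏ i ∈ Finset.range H.card, u i ≤ ∏ i ∈ H, u i := by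
  induction H using Finset.induction_on_max with
  | empty => simp
  | insert a s ha ih =>
    have hna : a ∉ s := fun h => lt_irrefl a (ha a h)
    rw [Finset.card_insert_of_notMem hna, Finset.prod_insert hna, Finset.prod_range_succ, mul_comm]
    have hsub : s ⊆ Finset.range a := fun x hx => Finset.mem_range.2 (ha x hx)
    have hc : s.card ≤ a := by
      have := Finset.card_le_card hsub
      simpa using this
    exact Nat.mul_le_mul (hu.monotone hc) ih

/-- the set defining `t u y` is bounded -/
theorem bdd (u : ℕ → ℕ) (h2 : ∀ i, 2 ≤ u i) (y : ℕ) :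
    BddAbove { k | ∏ i ∈ Finset.range k, u i ≤ y } := by
  refine ⟨y, fun k hk => ?_⟩
  have hk' : ∏ i ∈ Finset.range k, u i ≤ y := hk
  have h1 : 2 ^ k ≤ ∏ i ∈ Finset.range k, u i := by
    have := Finset.prod_le_prod' (s := Finset.range k) (f := fun _ => 2) (g := u)
      (fun i _ => h2 i)
    simpa using this
  exact (Nat.lt_two_pow_self.le.trans h1).trans hk'

theorem t_CNT : Pool.Agent.E8helper11.GS.S_CNT := by
  intro u hu h2 H y hH
  unfold t
  exact le_csSup (bdd u h2 y) ((prod_range_card_le u hu H).trans hH)

end Pool.Agent.E8helper30.GS
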